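import Pool.Agent.Helper83.RelQ.Defs
import Pool.Agent.Helper11.QU.P3
import Pool.Agent.Helper28.QU.P6

/-!
# T-REL for quadric bundles, piece Q6: the symbols have no common zero on `T`
-/

set_option autoImplicit false

namespace Pool.Agent.Helper17.RelQ

open Matrix Pool.Agent.Helper49.QU Pool.Agent.Helper69.CB Pool.Agent.Helper83.RelQ

variable {n r : ℕ} {N : Fin r → ℕ}

theorem map_incBR {A A' : Type} [CommRing A] [CommRing A'] (φ : A →+* A')
    (B : ∀ i : Fin r, Matrix (Fin (N i)) (Fin (N i)) (MvPolynomial (Fin n) A)) (i : Fin r) :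
    (incBR N B i).map (MvPolynomial.map φ) =
      incBR N (fun i => (B i).map (MvPolynomial.map φ)) i := by
  refine Matrix.ext fun j k => ?_
  show MvPolynomial.map φ (MvPolynomial.rename (tix N) (B i j k)) =
    MvPolynomial.rename (tix N) (MvPolynomial.map φ (B i j k))
  rw [MvPolynomial.map_rename]

theorem map_gvR {A A' : Type} [CommRing A] [CommRing A'] (φ : A →+* A') (i : Fin r) :
    (fun c j => MvPolynomial.map φ (gvR n N A i c j)) = gvR n N A' i := by
  funext c j
  show MvPolynomial.map φ (MvPolynomial.X _) = MvPolynomial.X _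
  rw [MvPolynomial.map_X]

theorem map_sym {A A' : Type} [CommRing A] [CommRing A'] (φ : A →+* A')
    (B : ∀ i : Fin r, Matrix (Fin (N i)) (Fin (N i)) (MvPolynomial (Fin n) A)) (i : Fin r) :
    MvPolynomial.map φ (aQR N B i) = aQR N (fun i => (B i).map (MvPolynomial.map φ)) i ∧
    MvPolynomial.map φ (bQR N B i) = bQR N (fun i => (B i).map (MvPolynomial.map φ)) i := by
  unfold aQR bQR qa qb
  rw [map_neg, map_neg, map_mul, map_mul, Pool.Agent.Helper11.QU.map_D1,
    Pool.Agent.Helper11.QU.map_D2, Pool.Agent.Helper11.QU.map_D3, map_incBR, map_gvR]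
  exact ⟨rfl, rfl⟩

/-- **Q6.** if over the algebraic closure the `3 × 3` minors vanish at the vertex only, the symbols
have coefficients without common zero on `T` -/
theorem geomNoZero_sym {K : Type} [Field K] [CharZero K] {R : Type} [CommRing R] [Algebra K R]
    {M : ℕ} (τ : Fin M → R)
    (B : ∀ i : Fin r, Matrix (Fin (N i)) (Fin (N i)) (MvPolynomial (Fin n) R))
    (hB : ∀ i, (B i).IsSymm) (i : Fin r)
    (h : ∀ ψ : R →ₐ[K] AlgebraicClosure K,
      (∀ f g : Fin 3 → Fin (N i),
        (((B i).map (MvPolynomial.map (ψ : R →+* AlgebraicClosure K))).submatrix f g).det = 0) →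
      ∀ l, ψ (τ l) = 0) :
    GeomNoZero K τ (aQR N B i) ∧ GeomNoZero K τ (bQR N B i) := by
  have key : ∀ ψ : R →ₐ[K] AlgebraicClosure K,
      (MvPolynomial.map (ψ : R →+* AlgebraicClosure K) (aQR N B i) = 0 ∨
        MvPolynomial.map (ψ : R →+* AlgebraicClosure K) (bQR N B i) = 0) → ∀ l, ψ (τ l) = 0 := by
    intro ψ h0
    refine h ψ fun f g => ?_
    by_contra hfg
    have h1 := Pool.Agent.Helper28.QU.aQ_bQ_ne_zero (k := AlgebraicClosure K)
      (fun i => (B i).map (MvPolynomial.map (ψ : R →+* AlgebraicClosure K)))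
      (fun i => (hB i).map _) i ⟨f, g, hfg⟩
    have h2 := map_sym (ψ : R →+* AlgebraicClosure K) B i
    rcases h0 with h0 | h0
    · exact h1.1 (h2.1.symm.trans h0)
    · exact h1.2 (h2.2.symm.trans h0)
  exact ⟨fun ψ h0 => key ψ (Or.inl h0), fun ψ h0 => key ψ (Or.inr h0)⟩

end Pool.Agent.Helper17.RelQ
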